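import Pool.Agent.H174.GP.StH

/-!
# Project GP, `S_H2`: `Hz` is close to `Ch`
-/

set_option autoImplicit false

namespace Pool.Agent.H155.GP174

open Finset Pool.Agent.H174.GP

lemma wb (j : ℕ) (hj : 1 ≤ j) :
    |1 / Real.sqrt ((j : ℝ) * ((j : ℝ) + 1)) - 1 / (j : ℝ)| ≤ 1 / (2 * (j : ℝ) ^ 2) := by
  have hj' : (1 : ℝ) ≤ j := by exact_mod_cast hj
  have hj0 : (0 : ℝ) < j := by linarith
  set s := Real.sqrt ((j : ℝ) * ((j : ℝ) + 1)) with hs
  have h1 : (j : ℝ) ≤ s := by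
    rw [hs]
    apply Real.le_sqrt_of_sq_le
    nlinarith
  have h2 : s ≤ (j : ℝ) + 1 / 2 := by
    rw [hs, Real.sqrt_le_left (by positivity)]
    nlinarith
  have hs0 : 0 < s := lt_of_lt_of_le hj0 h1
  have h3 : 1 / s ≤ 1 / (j : ℝ) := one_div_le_one_div_of_le hj0 h1
  rw [abs_sub_comm, abs_of_nonneg (by linarith)]
  rw [div_sub_div _ _ hj0.ne' hs0.ne', div_le_div_iff₀ (mul_pos hj0 hs0) (by positivity)]
  have h4 : s - j ≤ 1 / 2 := by linarith
  have h5 : (1 * s - (j : ℝ) * 1) * (2 * (j : ℝ) ^ 2) ≤ (1 / 2) * (2 * (j : ℝ) ^ 2) := by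
    apply mul_le_mul_of_nonneg_right _ (by positivity)
    linarith
  have h6 : (1 / 2) * (2 * (j : ℝ) ^ 2) ≤ 1 * ((j : ℝ) * s) := by nlinarith
  linarith

/-- the summand -/
noncomputable def tm (x j : ℕ) : ℝ := ((min j x : ℕ) : ℝ) * (1 / (2 * (j : ℝ) ^ 2))

lemma tm_nonneg (x j : ℕ) : 0 ≤ tm x j := by
  unfold tm
  positivity

lemma sum_low (x m : ℕ) (hx : 1 ≤ x) (hm : m ≤ x) :
    ∑ j ∈ Icc 1 m, tm x j ≤ (1 + Real.log x) / 2 := by
  have h0 : ∑ j ∈ Icc 1 m, tm x j ≤ ∑ j ∈ Icc 1 x, tm x j :=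
    sum_le_sum_of_subset_of_nonneg (Icc_subset_Icc_right hm) fun j _ _ => tm_nonneg x j
  have h1 : ∑ j ∈ Icc 1 x, tm x j = (1 / 2) * ∑ j ∈ Icc 1 x, ((j : ℝ))⁻¹ := by
    rw [mul_sum]
    refine sum_congr rfl fun j hj => ?_
    rw [mem_Icc] at hj
    have hj0 : (0 : ℝ) < j := by exact_mod_cast hj.1
    unfold tm
    rw [min_eq_left hj.2]
    field_simp
  have h2 := harmonic_le_one_add_log x
  have h3 : ((harmonic x : ℚ) : ℝ) = ∑ j ∈ Icc 1 x, ((j : ℝ))⁻¹ := by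
    rw [harmonic_eq_sum_Icc]
    push_cast
    rfl
  rw [h3] at h2
  linarith

lemma sum_high (x k : ℕ) (hx : 1 ≤ x) :
    ∑ j ∈ Icc 1 (x + k), tm x j ≤
      (1 + Real.log x) / 2 + (x : ℝ) / 2 * (1 / (x : ℝ) - 1 / ((x : ℝ) + k)) := by
  have hx0 : (0 : ℝ) < x := by exact_mod_cast hx
  induction k with
  | zero =>
    have h1 := sum_low x x hx le_rfl
    simpa using h1
  | succ k ih =>
    rw [show x + (k + 1) = (x + k) + 1 by ring, sum_Icc_succ_top (by omega)]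
    have hk : (0 : ℝ) ≤ k := Nat.cast_nonneg k
    have h1 : tm x (x + k + 1) = (x : ℝ) * (1 / (2 * ((x : ℝ) + k + 1) ^ 2)) := by
      unfold tm
      rw [min_eq_right (by omega)]
      push_cast
      ring
    have h2 : (1 : ℝ) / (2 * ((x : ℝ) + k + 1) ^ 2) ≤
        1 / 2 * (1 / ((x : ℝ) + k) - 1 / ((x : ℝ) + (k + 1))) := by
      have h3 : 1 / 2 * (1 / ((x : ℝ) + k) - 1 / ((x : ℝ) + (k + 1))) =
          1 / (2 * (((x : ℝ) + k) * ((x : ℝ) + k + 1))) := by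
        field_simp
        ring
      rw [h3]
      apply one_div_le_one_div_of_le (by positivity)
      nlinarith
    rw [h1]
    push_cast
    have h4 := mul_le_mul_of_nonneg_left h2 hx0.le
    nlinarith

lemma sum_all (x m : ℕ) (hx : 1 ≤ x) : ∑ j ∈ Icc 1 m, tm x j ≤ 1 + Real.log x := by
  have hx1 : (1 : ℝ) ≤ x := by exact_mod_cast hx
  have hx0 : (0 : ℝ) < x := by linarith
  have hl : 0 ≤ Real.log x := Real.log_nonneg hx1
  rcases le_total m x with h | h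
  · have := sum_low x m hx h
    linarith
  · obtain ⟨k, rfl⟩ := Nat.exists_eq_add_of_le h
    have h1 := sum_high x k hx
    have h2 : (x : ℝ) / 2 * (1 / (x : ℝ) - 1 / ((x : ℝ) + k)) ≤ 1 / 2 := by
      have h3 : (x : ℝ) / 2 * (1 / (x : ℝ)) = 1 / 2 := by field_simp
      have h4 : 0 ≤ (x : ℝ) / 2 * (1 / ((x : ℝ) + k)) := by positivity
      rw [mul_sub]
      linarith
    linarith

theorem gp_h2 : S_H2 := by
  intro n z a hn ha hz x hx
  rw [mem_Icc] at hx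
  have hn0 : (0 : ℝ) < n := by exact_mod_cast hn
  have hn1 : (1 : ℝ) ≤ n := by exact_mod_cast hn
  have hx0 : (0 : ℝ) < x := by exact_mod_cast hx.1
  have e1 : Ch z n x = (∑ j ∈ Icc 1 (n - 1), ((min j x : ℕ) : ℝ) * (z j / (j : ℝ))) +
      (x : ℝ) * (z n / n) := by
    unfold Ch Cs
    obtain ⟨m, rfl⟩ : ∃ m, n = m + 1 := ⟨n - 1, by omega⟩
    rw [sum_Icc_succ_top (by omega), Nat.add_sub_cancel, min_eq_right hx.2]
  have e2 : Hz z n x - Ch z n x = (∑ j ∈ Icc 1 (n - 1), ((min j x : ℕ) : ℝ) *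
      (z j * (1 / Real.sqrt ((j : ℝ) * ((j : ℝ) + 1)) - 1 / (j : ℝ)))) +
      (x : ℝ) * (z n * (1 / Real.sqrt n - 1 / n)) := by
    rw [e1]
    unfold Hz
    have : ∀ A B C D : ℝ, A + B - (C + D) = (A - C) + (B - D) := fun A B C D => by ring
    rw [this, ← sum_sub_distrib]
    congr 1
    · refine sum_congr rfl fun j _ => ?_
      ring
    · ring
  have h1 : |∑ j ∈ Icc 1 (n - 1), ((min j x : ℕ) : ℝ) *
      (z j * (1 / Real.sqrt ((j : ℝ) * ((j : ℝ) + 1)) - 1 / (j : ℝ)))| ≤ a * (1 + Real.log x) := by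
    refine (abs_sum_le_sum_abs _ _).trans ?_
    calc _ ≤ ∑ j ∈ Icc 1 (n - 1), a * tm x j := by
          refine sum_le_sum fun j hj => ?_
          rw [mem_Icc] at hj
          have hzj := hz j (mem_Icc.2 ⟨hj.1, by omega⟩)
          have hw := wb j hj.1
          rw [abs_mul, abs_mul, abs_of_nonneg (Nat.cast_nonneg (min j x))]
          unfold tm
          calc ((min j x : ℕ) : ℝ) * (|z j| *
                |1 / Real.sqrt ((j : ℝ) * ((j : ℝ) + 1)) - 1 / (j : ℝ)|)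
              ≤ ((min j x : ℕ) : ℝ) * (a * (1 / (2 * (j : ℝ) ^ 2))) := by gcongr
            _ = _ := by ring
      _ = a * ∑ j ∈ Icc 1 (n - 1), tm x j := by rw [mul_sum]
      _ ≤ _ := mul_le_mul_of_nonneg_left (sum_all x (n - 1) hx.1) ha
  have h2 : |(x : ℝ) * (z n * (1 / Real.sqrt n - 1 / n))| ≤ 2 * a * x / Real.sqrt n := by
    have hzn := hz n (mem_Icc.2 ⟨hn, le_rfl⟩)
    have hs0 : 0 < Real.sqrt n := Real.sqrt_pos.2 hn0
    have hsn : Real.sqrt n ≤ n := by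
      rw [Real.sqrt_le_left hn0.le]
      nlinarith
    have h3 : 1 / (n : ℝ) ≤ 1 / Real.sqrt n := one_div_le_one_div_of_le hs0 hsn
    have h4 : 0 ≤ 1 / (n : ℝ) := by positivity
    have h5 : |1 / Real.sqrt n - 1 / (n : ℝ)| ≤ 1 / Real.sqrt n := by
      rw [abs_of_nonneg (by linarith)]
      linarith
    rw [abs_mul, abs_mul, abs_of_pos hx0]
    calc (x : ℝ) * (|z n| * |1 / Real.sqrt n - 1 / (n : ℝ)|) ≤ x * (a * (1 / Real.sqrt n)) := by
          gcongr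
      _ ≤ 2 * (x * (a * (1 / Real.sqrt n))) := by
          have : 0 ≤ (x : ℝ) * (a * (1 / Real.sqrt n)) := by positivity
          linarith
      _ = _ := by ring
  rw [e2]
  exact (abs_add_le _ _).trans (add_le_add h1 h2)

end Pool.Agent.H155.GP174
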